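import Mathlib
import Pool.Agent.TH112.BW.Clus

set_option autoImplicit false

namespace Pool.Agent.Results.MP_10effd_pr.LinearByGrowth

open Pool.Agent.TH112.BW

/-- For every bias `ε ∈ (0,1)` and degree bound `Δ` there is `C` such that on every connected graph with `n ≥ 2`
vertices and maximum degree at most `Δ`, from every start, some control strategy of the `ε`-time-biased walk has
expected cover time at most `C` times the sum of `(1 - ε)^(dist x y)` over all ordered pairs of vertices. -/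
theorem result :
  ∀ ε : ℝ, 0 < ε → ε < 1 → ∀ Δ : ℕ, ∃ C : ℝ, 0 < C ∧
    ∀ (V : Type) [Fintype V] [DecidableEq V] (G : SimpleGraph V) [DecidableRel G.Adj],
      2 ≤ Fintype.card V → G.Connected → (∀ v : V, G.degree v ≤ Δ) →
      ∀ v₀ : V, ∃ f : V → Finset V → V, (∀ (u : V) (S : Finset V), G.Adj u (f u S)) ∧
        (∑' t : ℕ, ∑ p : V × Finset V,
          (if p.2 = Finset.univ then (0 : ENNReal) else
            (Nat.rec (motive := fun _ => V × Finset V → ENNReal)
              (fun q : V × Finset V => if q = (v₀, ({v₀} : Finset V)) then (1 : ENNReal) else 0)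
              (fun (_ : ℕ) (μ : V × Finset V → ENNReal) (q : V × Finset V) =>
                ∑ r : V × Finset V, μ r *
                  (if G.Adj r.1 q.1 ∧ q.2 = insert q.1 r.2 then
                    ENNReal.ofReal ((1 - ε) / (G.degree r.1 : ℝ) +
                      (if q.1 = f r.1 r.2 then ε else 0))
                  else 0))
              t) p))
          ≤ ENNReal.ofReal (C * ∑ x : V, ∑ y : V, (1 - ε) ^ (G.dist x y)) := by
  intro ε hε0 hε1 Δ
  obtain ⟨b, hb0, hb1, hb⟩ : ∃ b : ℝ, 0 < b ∧ b < 1 ∧ b ^ 2 = 1 - ε := by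
    refine ⟨Real.sqrt (1 - ε), ?_, ?_, ?_⟩
    · exact Real.sqrt_pos.mpr (by linarith)
    · rw [Real.sqrt_lt' one_pos, one_pow]
      linarith
    · exact Real.sq_sqrt (by linarith)
  have hH := Hh_nonneg Δ
  refine ⟨Δ * (1 / b) ^ 2 * (Hh Δ + 2) + 1, by positivity, ?_⟩
  intro V _ _ G _ hcard hG hΔ v₀
  have hN : ∀ x, (G.neighborFinset x).Nonempty := by
    intro x
    have hnt : Nontrivial V := Fintype.one_lt_card_iff_nontrivial.mp (by omega)
    obtain ⟨y, hy⟩ := hG.preconnected.exists_adj_of_nontrivial x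
    exact ⟨y, by simpa using hy⟩
  have hbound : ∀ k, J G ε hN (fun _ S => S = Finset.univ) k v₀ {v₀}
      ≤ (Δ * (1 / b) ^ 2 * (Hh Δ + 2) + 1) * ∑ x : V, ∑ y : V, (1 - ε) ^ (G.dist x y) := by
    intro k
    have h1 := bound_growth ε hε0 hε1 b hb0 hb1 hb Δ hN hG hΔ v₀ k {v₀} (Finset.mem_singleton_self _)
    have h2 : J G ε hN (fun _ S => S = Finset.univ) k v₀ {v₀} ≤ J G ε hN (Dt v₀ Finset.univ) k v₀ {v₀} :=
      J_anti hε0.le hε1.le hN _ _ (fun x S hx => Finset.univ_subset_iff.mp hx.2) k v₀ {v₀}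
    refine (h2.trans h1).trans ?_
    have h3 : 0 ≤ ∑ x : V, ∑ y : V, (1 - ε) ^ (G.dist x y) :=
      Finset.sum_nonneg fun x _ => Finset.sum_nonneg fun y _ => pow_nonneg (by linarith) _
    exact mul_le_mul_of_nonneg_right (by linarith) h3
  obtain ⟨f, hf1, hf2⟩ := exists_strategy hε0.le hε1.le hN v₀ _ hbound
  exact ⟨f, hf1, hf2⟩

end Pool.Agent.Results.MP_10effd_pr.LinearByGrowth
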