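import Mathlib
import Pool.Agent.TH112.BW.Clus

set_option autoImplicit false

namespace Pool.Agent.Results.MP_10effd_pr.PolylogCover

open Pool.Agent.TH112.BW

/-- For every bias `ε ∈ (0,1)` and degree bound `Δ` there is `C` such that on every connected graph with `n ≥ 2`
vertices and maximum degree at most `Δ`, from every start, some control strategy of the `ε`-time-biased walk has
expected cover time at most `C n (log n)^2`. -/
theorem result :
  ∀ ε : ℝ, 0 < ε → ε < 1 → ∀ Δ : ℕ, ∃ C : ℝ, 0 < C ∧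
    ∀ (V : Type) [Fintype V] [DecidableEq V] (G : SimpleGraph V) [DecidableRel G.Adj],
      2 ≤ Fintype.card V → G.Connected → (∀ v : V, G.degree v ≤ Δ) →
      ∀ v₀ : V, ∃ f : V → Finset V → V, (∀ (u : V) (S : Finset V), G.Adj u (f u S)) ∧
        (∑' t : ℕ, ∑ p : V × Finset V,
          (if p.2 = Finset.univ then (0 : ENNReal) else
            (Nat.rec (motive := fun _ => V × Finset V → ENNReal)
              (fun q : V × Finset V => if q = (v₀, ({v₀} : Finset V)) then (1 : ENNReal) else 0)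
              (fun (_ : ℕ) (μ : V × Finset V → ENNReal) (q : V × Finset V) =>
                ∑ r : V × Finset V, μ r *
                  (if G.Adj r.1 q.1 ∧ q.2 = insert q.1 r.2 then
                    ENNReal.ofReal ((1 - ε) / (G.degree r.1 : ℝ) +
                      (if q.1 = f r.1 r.2 then ε else 0))
                  else 0))
              t) p))
          ≤ ENNReal.ofReal (C * (Fintype.card V : ℝ) * Real.log (Fintype.card V : ℝ) ^ 2) := by
  intro ε hε0 hε1 Δ
  obtain ⟨b, hb0, hb1, hb⟩ : ∃ b : ℝ, 0 < b ∧ b < 1 ∧ b ^ 4 = 1 - ε := by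
    refine ⟨Real.sqrt (Real.sqrt (1 - ε)), ?_, ?_, ?_⟩
    · exact Real.sqrt_pos.mpr (Real.sqrt_pos.mpr (by linarith))
    · rw [Real.sqrt_lt' one_pos, one_pow, Real.sqrt_lt' one_pos, one_pow]
      linarith
    · have h1 : (Real.sqrt (Real.sqrt (1 - ε))) ^ 2 = Real.sqrt (1 - ε) := Real.sq_sqrt (Real.sqrt_nonneg _)
      have h2 : (Real.sqrt (1 - ε)) ^ 2 = 1 - ε := Real.sq_sqrt (by linarith)
      calc (Real.sqrt (Real.sqrt (1 - ε))) ^ 4 = ((Real.sqrt (Real.sqrt (1 - ε))) ^ 2) ^ 2 := by ring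
        _ = 1 - ε := by rw [h1, h2]
  have hlogb : 0 < Real.log (1 / b) := Real.log_pos (by rw [lt_div_iff₀ hb0]; linarith)
  refine ⟨4 * Δ * (2 / Real.log (1 / b) + 2 / b ^ 2) * 7 + 1, by positivity, ?_⟩
  intro V _ _ G _ hcard hG hΔ v₀
  have hN : ∀ x, (G.neighborFinset x).Nonempty := by
    intro x
    have hnt : Nontrivial V := Fintype.one_lt_card_iff_nontrivial.mp (by omega)
    obtain ⟨y, hy⟩ := hG.preconnected.exists_adj_of_nontrivial x
    exact ⟨y, by simpa using hy⟩
  set n := Fintype.card V with hn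
  have hn2 : (2 : ℝ) ≤ n := by exact_mod_cast hcard
  have hlog2 : (1 : ℝ) / 2 < Real.log 2 := by have := Real.log_two_gt_d9; linarith
  have hlogn : 1 / 2 < Real.log n := lt_of_lt_of_le hlog2 (Real.log_le_log (by norm_num) hn2)
  have hbound : ∀ k, J G ε hN (fun _ S => S = Finset.univ) k v₀ {v₀}
      ≤ (4 * Δ * (2 / Real.log (1 / b) + 2 / b ^ 2) * 7 + 1) * (n : ℝ) * Real.log (n : ℝ) ^ 2 := by
    intro k
    have h1 := bound_polylog ε hε0 hε1 b hb0 hb1 hb Δ hN hG hΔ v₀ k {v₀} (Finset.mem_singleton_self _)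
    have h2 : J G ε hN (fun _ S => S = Finset.univ) k v₀ {v₀} ≤ J G ε hN (Dt v₀ Finset.univ) k v₀ {v₀} :=
      J_anti hε0.le hε1.le hN _ _ (fun x S hx => Finset.univ_subset_iff.mp hx.2) k v₀ {v₀}
    refine (h2.trans h1).trans ?_
    rw [← hn]
    have h3 : 2 * Real.log n / Real.log (1 / b) + 1 / b ^ 2
        ≤ (2 / Real.log (1 / b) + 2 / b ^ 2) * Real.log n := by
      have e1 : 2 * Real.log n / Real.log (1 / b) = 2 / Real.log (1 / b) * Real.log n := by ring
      have e2 : 1 / b ^ 2 ≤ 2 / b ^ 2 * Real.log n := by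
        have : 1 / b ^ 2 * 1 ≤ 1 / b ^ 2 * (2 * Real.log n) :=
          mul_le_mul_of_nonneg_left (by linarith) (by positivity)
        calc 1 / b ^ 2 = 1 / b ^ 2 * 1 := by ring
          _ ≤ 1 / b ^ 2 * (2 * Real.log n) := this
          _ = _ := by ring
      rw [e1, add_mul]
      linarith
    have h4 : Real.log n + 3 ≤ 7 * Real.log n := by linarith
    have h5 : 0 ≤ 4 * (Δ : ℝ) * n := by positivity
    have h6 : 0 ≤ 2 / Real.log (1 / b) + 2 / b ^ 2 := by positivity
    calc 4 * (Δ : ℝ) * n * (2 * Real.log n / Real.log (1 / b) + 1 / b ^ 2) * (Real.log n + 3)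
        ≤ 4 * (Δ : ℝ) * n * ((2 / Real.log (1 / b) + 2 / b ^ 2) * Real.log n) * (7 * Real.log n) := by
          refine mul_le_mul (mul_le_mul_of_nonneg_left h3 h5) h4 (by linarith) ?_
          exact mul_nonneg h5 (mul_nonneg h6 (by linarith))
      _ = (4 * Δ * (2 / Real.log (1 / b) + 2 / b ^ 2) * 7) * (n : ℝ) * Real.log (n : ℝ) ^ 2 := by ring
      _ ≤ _ := by
          have : 0 ≤ (n : ℝ) * Real.log (n : ℝ) ^ 2 := by positivity
          nlinarith
  obtain ⟨f, hf1, hf2⟩ := exists_strategy hε0.le hε1.le hN v₀ _ hbound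
  exact ⟨f, hf1, hf2⟩

end Pool.Agent.Results.MP_10effd_pr.PolylogCover
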